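import Pool.Agent.N561.G.HingeW
import Pool.Agent.TH563.CV.Path

/-!
# The sum of the dilogarithms along a path of hinges, for `HW` (helper769)
-/

set_option autoImplicit false

namespace Pool.Agent.N769.AX

open Pool.Agent.W711.HT hiding XX
open Pool.Agent.W719.AR (Fl flS)
open Pool.Agent.W864.AR (t1 t2)
open Pool.Agent.TH609.UV (fe)
open Pool.Agent.TH609.Z (ex)
open Pool.Agent.W554.HT (tri)
open Pool.Agent.N561 (SW SR HW)
open Pool.Agent.N561.G (hw_symm ne_X1 ne_G1 ne_XG ne_XaG one_sub_t1 one_sub_inv_t1 one_sub_t2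
  one_sub_inv_t2 exp_form hinge)
open Pool.Agent.TH563.CV (GP z1 z2 rog algG ddR log_eq arg_one_div S_DER)
open Filter Topology Set
open scoped Real

lemma z_imW {ψ ψ' u : ℂ} (h : HW ψ ψ' u) : 0 < (z1 ψ u).im ∧ 0 < (z2 ψ u).im :=
  ⟨h.sd.im1, h.sd.im2⟩

theorem lrW {ψ ψ' u : ℂ} (h : HW ψ ψ' u) :
    Complex.log (z1 ψ u) + Complex.log (z2 ψ u) - Complex.log (1 - z1 ψ u) =
      π * Complex.I + Complex.I * ψ ∧
    Complex.log (z1 ψ u) + Complex.log (1 - z2 ψ u) = Lg u ψ ∧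
    2 * Complex.log (z2 ψ u) + Complex.log (z1 ψ' u) - Complex.log (1 - z2 ψ' u) =
      π * Complex.I + Complex.I * ψ := by
  have h' := hw_symm h
  have hW := exp_form h.sd
  have hn := h.sd
  have hn' := h.sd'
  have hg1 := hinge h
  have hX : ex u ≠ 0 := Complex.exp_ne_zero _
  have hX1 := ne_X1 hn
  have hG : ex ψ ≠ 0 := Complex.exp_ne_zero _
  have hG1 := ne_G1 hn
  have hXG := ne_XG hn
  have hXaG := ne_XaG hn
  have hK : ex ψ' ≠ 0 := Complex.exp_ne_zero _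
  have hK1 := ne_G1 hn'
  have hXK := ne_XG hn'
  have hXaK := ne_XaG hn'
  have i1 := (z_imW h).1
  have i2 := (z_imW h).2
  have j1 := (z_imW h').1
  have j2 := (z_imW h').2
  have q1 := one_sub_t1 hn
  have q3 := one_sub_t2 hn
  have p3 := one_sub_t2 hn'
  obtain ⟨t10, t11, t12, t13, t14, t15, -, -, -⟩ := tri i1
  obtain ⟨t20, t21, t22, t23, t24, t25, -, -, -⟩ := tri i2
  obtain ⟨u10, u11, u12, u13, u14, u15, -, -, -⟩ := tri j1
  obtain ⟨u20, u21, u22, u23, u24, u25, -, -, -⟩ := tri j2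
  obtain ⟨-, -, -, s4, s5, s6⟩ := h.sr
  have a1 := arg_one_div i1
  have a2 := arg_one_div i2
  have b2 := arg_one_div j2
  simp only [fe, flS, Fl.tw, Fl.cr] at s4 s5 s6
  have hI (ψ : ℂ) : (π * Complex.I + Complex.I * ψ).im = π + ψ.re := by simp
  have hE (ψ : ℂ) : Complex.exp (π * Complex.I + Complex.I * ψ) = -ex ψ := by
    rw [Complex.exp_add, Complex.exp_pi_mul_I]; ring
  have y1 : z1 ψ u = t1 (ex u) (ex ψ) := rfl
  have y2 : z2 ψ u = t2 (ex u) (ex ψ) := rfl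
  have y3 : z1 ψ' u = t1 (ex u) (ex ψ') := rfl
  have y4 : z2 ψ' u = t2 (ex u) (ex ψ') := rfl
  refine ⟨log_eq ?_ ?_, log_eq ?_ ?_, log_eq ?_ ?_⟩
  · rw [hE, Complex.exp_sub, Complex.exp_add, Complex.exp_log t10, Complex.exp_log t20,
      Complex.exp_log t11]
    rw [y1, y2, q1, t1, t2]
    have hX1' : 1 - ex u ≠ 0 := by
      intro h0
      apply hX1
      linear_combination -h0
    field_simp
    ring
  · rw [hI, Complex.sub_im, Complex.add_im, Complex.log_im, Complex.log_im, Complex.log_im]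
    change (z1 ψ u).arg + (z2 ψ u).arg + (1 / (1 - z1 ψ u)).arg - π = ψ.re at s5
    linarith
  · rw [hW, Complex.exp_add, Complex.exp_log t10, Complex.exp_log t21]
    rw [y1, y2, q3, t1]
    field_simp
    ring
  · rw [Complex.add_im, Complex.log_im, Complex.log_im]
    change (z1 ψ u).arg + (z2 ψ u).arg + (1 - 1 / z2 ψ u).arg - π = (Lg u ψ).im at s6
    linarith
  · rw [hE, Complex.exp_sub, Complex.exp_add, two_mul, Complex.exp_add, Complex.exp_log t20,
      Complex.exp_log u10, Complex.exp_log u21]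
    rw [y2, y3, y4, p3, t1, t2]
    field_simp
    linear_combination (-1) * hg1
  · rw [hI, Complex.sub_im, Complex.add_im, Complex.log_im, Complex.log_im]
    have e : (2 * Complex.log (z2 ψ u)).im = 2 * (z2 ψ u).arg := by
      rw [two_mul, Complex.add_im, Complex.log_im, two_mul]
    rw [e]
    change 2 * (z2 ψ u).arg + ((z1 ψ' u).arg + (1 / (1 - z2 ψ' u)).arg) = π + ψ.re at s4
    linarith

theorem lr3W {ψ ψ' u : ℂ} (h : HW ψ ψ' u) :
    Complex.log (z2 ψ u) = (π * Complex.I + Complex.I * ψ + (Complex.log (z1 ψ' u) +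
      Complex.log (1 - z2 ψ' u))) / 2 - Complex.log (z1 ψ' u) ∧
    Complex.log (1 - z1 ψ u) = -(π * Complex.I + Complex.I * ψ - (Complex.log (z1 ψ' u) +
      Complex.log (1 - z2 ψ' u))) / 2 + Complex.log (z1 ψ u) - Complex.log (z1 ψ' u) := by
  obtain ⟨a1, a2, a3⟩ := lrW h
  refine ⟨?_, ?_⟩
  · linear_combination (1 / 2) * a3
  · linear_combination -a1 + (1 / 2) * a3

/-- the shapes along a path -/
lemma dzW {p U : ℝ → ℂ} {s : Set ℝ} {t : ℝ} (hp : DifferentiableWithinAt ℝ p s t)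
    (hU : DifferentiableWithinAt ℝ U s t) (h : SW (p t) (U t)) :
    (∃ a, HasDerivWithinAt (fun r => z1 (p r) (U r)) a s t) ∧
    (∃ a, HasDerivWithinAt (fun r => z2 (p r) (U r)) a s t) := by
  have hX : DifferentiableWithinAt ℝ (fun r => Complex.exp (Complex.I * U r)) s t :=
    (hU.const_mul Complex.I).cexp
  have hG : DifferentiableWithinAt ℝ (fun r => Complex.exp (Complex.I * p r)) s t :=
    (hp.const_mul Complex.I).cexp
  refine ⟨⟨_, DifferentiableWithinAt.hasDerivWithinAt ?_⟩,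
    ⟨_, DifferentiableWithinAt.hasDerivWithinAt ?_⟩⟩
  · unfold z1 t1
    exact (hX.mul (hG.add_const 1)).fun_div ((hX.mul hG).const_add 1) (ne_XG h)
  · unfold z2 t2
    exact ((hX.sub_const 1).mul hG).fun_div (hX.mul (hG.const_add 1))
      (mul_ne_zero (Complex.exp_ne_zero _) (ne_G1 h))

theorem pathW (hD : S_DER) {a b : ℝ} (hab : a < b) {p q U S p' q' : ℝ → ℂ}
    (hHG : ∀ t ∈ Icc a b, HW (p t) (q t) (U t))
    (hp : ∀ t ∈ Icc a b, HasDerivWithinAt p (p' t) (Icc a b) t)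
    (hq : ∀ t ∈ Icc a b, HasDerivWithinAt q (q' t) (Icc a b) t)
    (hU : ∀ t ∈ Icc a b, DifferentiableWithinAt ℝ U (Icc a b) t)
    (hS : ∀ t ∈ Icc a b, HasDerivWithinAt S
      (-(1 / (2 * π)) * (Lg (U t) (p t) * p' t + Lg (U t) (q t) * q' t)) (Icc a b) t) :
    GP (p b) (q b) (U b) (S b) = GP (p a) (q a) (U a) (S a) := by
  have key : ∀ t ∈ Icc a b, HasDerivWithinAt (fun t => GP (p t) (q t) (U t) (S t)) 0
      (Icc a b) t := by
    intro t ht
    have hh := hHG t ht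
    obtain ⟨⟨a1, d1⟩, ⟨a2, d2⟩⟩ := dzW (hp t ht).differentiableWithinAt (hU t ht) hh.sd
    obtain ⟨⟨a3, d3⟩, ⟨a4, d4⟩⟩ := dzW (hq t ht).differentiableWithinAt (hU t ht) hh.sd'
    have i1 := z_imW hh
    have i2 := z_imW (hw_symm hh)
    obtain ⟨l1, m1, r1⟩ := ddR hD d1 i1.1
    obtain ⟨l2, m2, r2⟩ := ddR hD d2 i1.2
    obtain ⟨l3, m3, r3⟩ := ddR hD d3 i2.1
    obtain ⟨l4, m4, r4⟩ := ddR hD d4 i2.2
    have main := ((((((r1.add r2).add r3).add r4).const_mul 2).sub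
      (((l1.add m2).add (l3.add m4)).const_mul (π * Complex.I / 2))).sub
      ((hS t ht).const_mul (Complex.I * 2 * π))).sub
      ((((hp t ht).mul (l1.add m2)).add ((hq t ht).mul (l3.add m4))).const_mul (Complex.I / 2))
    have hI : HasDerivWithinAt (fun r => π * Complex.I + Complex.I * p r) (Complex.I * p' t)
        (Icc a b) t := ((hp t ht).const_mul Complex.I).const_add (π * Complex.I)
    have hI' : HasDerivWithinAt (fun r => π * Complex.I + Complex.I * q r) (Complex.I * q' t)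
        (Icc a b) t := ((hq t ht).const_mul Complex.I).const_add (π * Complex.I)
    have hu := uniqueDiffOn_Icc hab t ht
    have g1 := hu.eq_deriv _ l2 ((((hI.add (l3.add m4)).div_const 2).sub l3).congr
      (fun r hr => (lr3W (hHG r hr)).1) (lr3W hh).1)
    have g2 := hu.eq_deriv _ m1 (((((hI.sub (l3.add m4)).neg.div_const 2).add l1).sub l3).congr
      (fun r hr => (lr3W (hHG r hr)).2) (lr3W hh).2)
    have g3 := hu.eq_deriv _ l4 ((((hI'.add (l1.add m2)).div_const 2).sub l1).congr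
      (fun r hr => (lr3W (hw_symm (hHG r hr))).1) (lr3W (hw_symm hh)).1)
    have g4 := hu.eq_deriv _ m3 (((((hI'.sub (l1.add m2)).neg.div_const 2).add l3).sub l1).congr
      (fun r hr => (lr3W (hw_symm (hHG r hr))).2) (lr3W (hw_symm hh)).2)
    refine main.congr_deriv ?_
    exact algG _ _ _ _ _ _ _ _ _ _ _ _ _ _ _ _ _ _ _ _ _ _ (lr3W hh).1 (lr3W hh).2
      (lr3W (hw_symm hh)).1 (lr3W (hw_symm hh)).2 (lrW hh).2.1.symm (lrW (hw_symm hh)).2.1.symm
      g1 g2 g3 g4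
  refine constant_of_derivWithin_zero (fun t ht => (key t ht).differentiableWithinAt)
    (fun t ht => (key t (Ico_subset_Icc_self ht)).derivWithin
      (uniqueDiffOn_Icc hab t (Ico_subset_Icc_self ht))) b (right_mem_Icc.2 hab.le)

/-- `GP` along a segment, if the potential is holomorphic near the segment -/
theorem segW (hD : S_DER) {f dl : ℂ → ℂ → ℂ} {D : Set (ℂ × ℂ)} (hDo : IsOpen D)
    (hf : DifferentiableOn ℂ (fun p : ℂ × ℂ => f p.1 p.2) D)
    (hdl : DifferentiableOn ℂ (fun p : ℂ × ℂ => dl p.1 p.2) D) {p0 q0 a b : ℂ}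
    (hin : ∀ t : ℝ, t ∈ Icc (0 : ℝ) 1 → (p0 + (t : ℂ) * a, q0 + (t : ℂ) * b) ∈ D)
    (hHW : ∀ t : ℝ, t ∈ Icc (0 : ℝ) 1 → HW (p0 + (t : ℂ) * a) (q0 + (t : ℂ) * b)
      (2 * π * dl (p0 + (t : ℂ) * a) (q0 + (t : ℂ) * b)))
    (h1 : ∀ p ∈ D, HasDerivAt (fun z => f z p.2) (-(1 / (2 * π)) * Lg (2 * π * dl p.1 p.2) p.1) p.1)
    (h2 : ∀ p ∈ D, HasDerivAt (fun z => f p.1 z) (-(1 / (2 * π)) * Lg (2 * π * dl p.1 p.2) p.2)
      p.2) :
    GP (p0 + a) (q0 + b) (2 * π * dl (p0 + a) (q0 + b)) (f (p0 + a) (q0 + b)) =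
      GP p0 q0 (2 * π * dl p0 q0) (f p0 q0) := by
  have hγ1 (t : ℝ) : HasDerivAt (fun t : ℝ => p0 + (t : ℂ) * a) a t := by
    simpa using ((Complex.ofRealCLM.hasDerivAt (x := t)).mul_const a).const_add p0
  have hγ2 (t : ℝ) : HasDerivAt (fun t : ℝ => q0 + (t : ℂ) * b) b t := by
    simpa using ((Complex.ofRealCLM.hasDerivAt (x := t)).mul_const b).const_add q0
  have hγ (t : ℝ) : HasDerivAt (fun t : ℝ => (p0 + (t : ℂ) * a, q0 + (t : ℂ) * b)) (a, b) t :=
    (hγ1 t).prodMk (hγ2 t)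
  have key := pathW hD zero_lt_one (p := fun t : ℝ => p0 + (t : ℂ) * a)
    (q := fun t : ℝ => q0 + (t : ℂ) * b)
    (U := fun t : ℝ => 2 * π * dl (p0 + (t : ℂ) * a) (q0 + (t : ℂ) * b))
    (S := fun t : ℝ => f (p0 + (t : ℂ) * a) (q0 + (t : ℂ) * b))
    (p' := fun _ => a) (q' := fun _ => b) hHW
    (fun t _ => (hγ1 t).hasDerivWithinAt) (fun t _ => (hγ2 t).hasDerivWithinAt) ?_ ?_
  · simpa only [Complex.ofReal_one, one_mul, Complex.ofReal_zero, zero_mul, add_zero] using key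
  · intro t ht
    have h3 : DifferentiableAt ℂ (fun p : ℂ × ℂ => dl p.1 p.2)
        (p0 + (t : ℂ) * a, q0 + (t : ℂ) * b) :=
      hdl.differentiableAt (hDo.mem_nhds (hin t ht))
    have h4 := (h3.restrictScalars ℝ).comp t (hγ t).differentiableAt
    exact (h4.const_mul (2 * (π : ℂ))).differentiableWithinAt
  · intro t ht
    have hm := hin t ht
    have h3 : HasFDerivAt (fun p : ℂ × ℂ => f p.1 p.2) _
        (p0 + (t : ℂ) * a, q0 + (t : ℂ) * b) :=
      (hf.differentiableAt (hDo.mem_nhds hm)).hasFDerivAt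
    set F := fderiv ℂ (fun p : ℂ × ℂ => f p.1 p.2) (p0 + (t : ℂ) * a, q0 + (t : ℂ) * b)
      with hF
    have f1 : F (1, 0) = -(1 / (2 * π)) * Lg (2 * π * dl (p0 + (t : ℂ) * a)
        (q0 + (t : ℂ) * b)) (p0 + (t : ℂ) * a) := by
      have a1 : HasDerivAt (fun z : ℂ => (z, q0 + (t : ℂ) * b)) ((1 : ℂ), (0 : ℂ))
          (p0 + (t : ℂ) * a) := (hasDerivAt_id _).prodMk (hasDerivAt_const _ _)
      have a2 := HasFDerivAt.comp_hasDerivAt (l := fun p : ℂ × ℂ => f p.1 p.2)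
        (p0 + (t : ℂ) * a) h3 a1
      exact a2.unique (h1 _ hm)
    have f2 : F (0, 1) = -(1 / (2 * π)) * Lg (2 * π * dl (p0 + (t : ℂ) * a)
        (q0 + (t : ℂ) * b)) (q0 + (t : ℂ) * b) := by
      have a1 : HasDerivAt (fun z : ℂ => (p0 + (t : ℂ) * a, z)) ((0 : ℂ), (1 : ℂ))
          (q0 + (t : ℂ) * b) := (hasDerivAt_const _ _).prodMk (hasDerivAt_id _)
      have a2 := HasFDerivAt.comp_hasDerivAt (l := fun p : ℂ × ℂ => f p.1 p.2)
        (q0 + (t : ℂ) * b) h3 a1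
      exact a2.unique (h2 _ hm)
    have a3 := HasFDerivAt.comp_hasDerivAt (l := fun p : ℂ × ℂ => f p.1 p.2) t
      (h3.restrictScalars ℝ) (hγ t)
    refine (a3.congr_deriv ?_).hasDerivWithinAt
    have e : ((a, b) : ℂ × ℂ) = a • ((1 : ℂ), (0 : ℂ)) + b • ((0 : ℂ), (1 : ℂ)) := by
      ext <;> simp
    rw [ContinuousLinearMap.coe_restrictScalars', e, map_add, map_smul, map_smul, f1, f2,
      smul_eq_mul, smul_eq_mul]
    ring

/-- for `ψ = 0` the value of `exp (i u)` is determined -/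
theorem ex_unique {φ u v : ℂ} (h : HW 0 φ u) (h' : HW 0 φ v) : ex u = ex v := by
  have c (z : ℂ) : Complex.cos z = (ex z + (ex z)⁻¹) / 2 := by
    rw [Complex.cos, ex, ← Complex.exp_neg]
    congr 3
    · ring
    · ring
  have e1 : Complex.cos u = Complex.cos v := by rw [h.eq, h'.eq]
  rw [c, c] at e1
  have hX : ex u ≠ 0 := Complex.exp_ne_zero _
  have hY : ex v ≠ 0 := Complex.exp_ne_zero _
  have e0 : ex 0 = 1 := by simp [ex]
  have i1 := h.sd.im1
  have i2 := h'.sd.im1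
  have n1 := ne_XG h.sd
  have n2 := ne_XG h'.sd
  rw [e0] at i1 i2 n1 n2
  set X := ex u
  set Y := ex v
  have e2 : (X - Y) * (X * Y - 1) = 0 := by
    field_simp at e1
    linear_combination e1
  rcases mul_eq_zero.1 e2 with h3 | h3
  · exact sub_eq_zero.1 h3
  · exfalso
    have hXY : X * Y = 1 := sub_eq_zero.1 h3
    have e3 : t1 X 1 + t1 Y 1 = 2 := by
      rw [t1, t1, div_add_div _ _ n1 n2, div_eq_iff (mul_ne_zero n1 n2)]
      linear_combination 2 * hXY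
    have e4 := congrArg Complex.im e3
    rw [Complex.add_im] at e4
    simp at e4
    linarith

theorem GP_congr {ψ φ u v S : ℂ} (h : ex u = ex v) : GP ψ φ u S = GP ψ φ v S := by
  have e : Complex.exp (Complex.I * u) = Complex.exp (Complex.I * v) := h
  unfold GP z1 z2
  rw [e]

end Pool.Agent.N769.AX
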