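import Pool.Agent.N769.AX.Reg
import Pool.Agent.N769.AX.Path
import Pool.Agent.N194.VS.K7
import Pool.Agent.N402.VK.CGeo
import Pool.Agent.TH563.CV.Der
import Pool.Agent.N561.AX.StmG

/-!
# The complex volume at the clasp: `S_CGEOX` (helper769)
-/

set_option autoImplicit false

namespace Pool.Agent.N769.AX

open Filter Topology Metric Set
open Pool.Agent.W711.HT hiding XX
open Pool.Agent.W505.VC
open Pool.Agent.W583.HTP (half_re two_mul_re arg_two_mul)
open Pool.Agent.W864.AR (t1 t2)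
open Pool.Agent.TH609.Z (ex)
open Pool.Agent.W554.HT (tri ang_eq)
open Pool.Agent.N561 (LL LS RR TH dst sg GG SGP SW HW EFW S_SGP S_EDGE SGQ S_CSG S_CGEO GEOS zc)
open Pool.Agent.N561.AX (GEOC S_GPS S_CGEOX)
open Pool.Agent.TH563.CV (GP)
open Pool.Agent.N402.VE Pool.Agent.N402.VK
open Pool.Agent.N496.VS (den_nz f_dcos)
open Pool.Agent.N194.VS (z0 zc_zero z0_re_pos)
open scoped Real

/-- the conditions for the edge on `ψ = 0` -/
theorem he_aux {t : ℂ} (h : 2 * t ∈ HH) (h0 : 0 ≤ t.re) : HE 0 (2 * t) (2 * π * dst 0 (2 * t)) := by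
  have e1 : (2 * t).re = 2 * t.re := by simp
  have e2 : (2 * t).im = 2 * t.im := by simp
  have hre := (abs_lt.1 h.1).2
  have him := h.2.1
  rw [e1] at hre
  rw [e2] at him
  have htp : Pool.Agent.N402.VE.Pt t := ⟨h0, by linarith, by linarith⟩
  have hd : dst 0 (2 * t) = 1 / π * Complex.arctan (Complex.cos t) := by
    rw [dst_zero]
    congr 3
    ring
  have hX : ex (2 * π * dst 0 (2 * t)) =
      (1 + Complex.cos t * Complex.I) / (1 - Complex.cos t * Complex.I) := by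
    rw [hd]
    exact ex_arctan htp
  have hn := nice_HH h
  have s1 : 0 < (t1 (ex (2 * π * dst 0 (2 * t))) (ex 0)).im := by
    rw [hX, t1_zero htp]
    exact im_t1_zero htp
  have s2 : 0 < (t2 (ex (2 * π * dst 0 (2 * t))) (ex 0)).im := by
    rw [hX, t2_zero htp]
    exact im_t2_zero htp
  have s3 : 0 < (t1 (ex (2 * π * dst 0 (2 * t))) (ex (2 * t))).im := by
    rw [hX, t1_phi htp]
    exact im_t1_phi htp
  have s4 : 0 < (t2 (ex (2 * π * dst 0 (2 * t))) (ex (2 * t))).im := by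
    rw [hX, t2_phi htp]
    exact im_t2_phi htp
  have s5 : |(0 : ℂ).re| < π := by
    rw [Complex.zero_re, abs_zero]
    exact Real.pi_pos
  have q1 := den_nz hn
  have q2 := f_dcos hn
  exact HE.mk (SW.mk s1 s2) (SW.mk s3 s4) q1 q2 s5 h.1

theorem he_zero {φ : ℂ} (h : φ ∈ HH) (h0 : 0 ≤ φ.re) : HE 0 φ (2 * π * dst 0 φ) := by
  obtain ⟨t, rfl⟩ : ∃ t, φ = 2 * t := ⟨φ / 2, by ring⟩
  apply he_aux h
  have e1 : (2 * t).re = 2 * t.re := by simp
  linarith

/-- the value at the point of the clasp -/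
theorem base (hP : S_GPS) :
    GP 0 (zc 0) (2 * π * dst 0 (zc 0)) (sg 0 (zc 0)) = -(π : ℂ) ^ 2 / 2 := by
  rw [zc_zero]
  obtain ⟨hH, hg⟩ := z0_HH
  obtain ⟨g, hg0, hgg⟩ := hP (z0.im * Complex.I) hg (by simp)
  obtain ⟨δ, hE, hGP⟩ := hgg 0 (z0.im * Complex.I) (by simpa using hg0.le)
    (by simpa using hg0.le)
  have hin : ∀ t ∈ Icc (0 : ℝ) 1, ((t * z0.re : ℝ) + z0.im * Complex.I : ℂ) ∈ HH :=
    fun t ht => HH_shrink hH ht.1 ht.2
  have hre : ∀ t : ℝ, ((t * z0.re : ℝ) + z0.im * Complex.I : ℂ).re = t * z0.re := by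
    intro t; simp
  have him : ∀ t : ℝ, ((t * z0.re : ℝ) + z0.im * Complex.I : ℂ).im = z0.im := by
    intro t; simp
  have hHW : ∀ t ∈ Icc (0 : ℝ) 1, HW 0 ((t * z0.re : ℝ) + z0.im * Complex.I : ℂ)
      (2 * π * dst 0 ((t * z0.re : ℝ) + z0.im * Complex.I : ℂ)) := by
    intro t ht
    apply hw
    apply he_zero (hin t ht)
    rw [hre]
    exact mul_nonneg ht.1 z0_re_pos.le
  have hq : ∀ t : ℝ, HasDerivAt (fun t : ℝ => ((t * z0.re : ℝ) + z0.im * Complex.I : ℂ))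
      (z0.re : ℂ) t := by
    intro t
    have h1 : HasDerivAt (fun t : ℝ => t * z0.re) z0.re t := by
      simpa using (hasDerivAt_id t).mul_const z0.re
    exact h1.ofReal_comp.add_const _
  have key := pathW Pool.Agent.TH563.CV.der zero_lt_one (p := fun _ => 0)
    (q := fun t : ℝ => ((t * z0.re : ℝ) + z0.im * Complex.I : ℂ))
    (U := fun t : ℝ => 2 * π * dst 0 ((t * z0.re : ℝ) + z0.im * Complex.I : ℂ))
    (S := fun t : ℝ => sg 0 ((t * z0.re : ℝ) + z0.im * Complex.I : ℂ))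
    (p' := fun _ => 0) (q' := fun _ => (z0.re : ℂ)) hHW
    (fun t _ => hasDerivWithinAt_const _ _ _) (fun t _ => (hq t).hasDerivWithinAt) ?_ ?_
  · have hone : (((1 : ℝ) * z0.re : ℝ) + z0.im * Complex.I : ℂ) = z0 := by
      rw [one_mul, Complex.re_add_im]
    have hzero : (((0 : ℝ) * z0.re : ℝ) + z0.im * Complex.I : ℂ) = z0.im * Complex.I := by
      rw [zero_mul, Complex.ofReal_zero, zero_add]
    have hW0 := hHW 0 ⟨le_rfl, zero_le_one⟩
    simp only [hone, hzero] at key hW0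
    rw [key, ← hGP]
    exact GP_congr (ex_unique hW0 hE.hg)
  · intro t ht
    have h1 := (dst_HH (hin t ht)).restrictScalars ℝ
    have h2 := h1.comp t (hq t).differentiableAt
    exact (h2.const_mul (2 * (π : ℂ))).differentiableWithinAt
  · intro t ht
    have h1 := sder2_HH (hin t ht) (by rw [him]; exact hg)
    have h2 := h1.comp_of_eq t (hq t) rfl
    refine (h2.congr_deriv ?_).hasDerivWithinAt
    ring

theorem near (hG : S_CSG) : ∃ r c C g : ℝ, SGQ (zc 0) r c C ∧ 0 < g ∧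
    ∀ ψ φ : ℂ, ‖ψ‖ ≤ g → ‖φ - zc 0‖ ≤ g →
      ψ ∈ Rc r r ∧ φ ∈ ball (zc 0) r ∧ EFW sg ψ φ (dst ψ φ) := by
  obtain ⟨r, c, C, hS⟩ := hG
  have hpi := Real.pi_gt_three
  have hr0 := hS.hr.1
  have hr1 := hS.hr.2
  set φ₀ : ℂ := zc 0 with hφ₀
  -- the base point
  have m0 : (0 : ℂ) ∈ Rc r r := by
    constructor <;> simpa using hr0
  have mφ : φ₀ ∈ ball φ₀ r := mem_ball_self hr0
  obtain ⟨b1, b2, b3⟩ := hS.dpos 0 m0 φ₀ mφ
  obtain ⟨i1, i2, i3⟩ := hS.im φ₀ mφ
  rw [Complex.zero_re, abs_zero, add_zero] at b2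
  have hu_re : (2 * π * dst 0 φ₀ : ℂ).re = 2 * π * (dst 0 φ₀).re := by
    rw [show (2 * π * dst 0 φ₀ : ℂ) = ((2 * π : ℝ) : ℂ) * dst 0 φ₀ by push_cast; ring]
    exact Complex.re_ofReal_mul _ _
  have hu_im : (2 * π * dst 0 φ₀ : ℂ).im = 2 * π * (dst 0 φ₀).im := by
    rw [show (2 * π * dst 0 φ₀ : ℂ) = ((2 * π : ℝ) : ℂ) * dst 0 φ₀ by push_cast; ring]
    exact Complex.im_ofReal_mul _ _
  have hX : ex (2 * π * dst 0 φ₀) = 1 + 2 * Complex.I := by
    have e1 := hS.dcos 0 m0 φ₀ mφ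
    rw [Complex.cos_zero, cos_zc, one_mul] at e1
    have e2 : (2 + 1 + (-1 - Complex.I) : ℂ) ≠ 0 := by
      intro h
      have := congrArg Complex.im h
      simp at this
    rw [eq_div_iff e2] at e1
    have e3 : Complex.cos (2 * π * dst 0 φ₀) =
        (ex (2 * π * dst 0 φ₀) + (ex (2 * π * dst 0 φ₀))⁻¹) / 2 := by
      rw [Complex.cos, ex, ← Complex.exp_neg]
      congr 3
      · ring
      · ring
    have hne : ex (2 * π * dst 0 φ₀) ≠ 0 := Complex.exp_ne_zero _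
    have him : 0 < (ex (2 * π * dst 0 φ₀)).im := by
      unfold ex
      rw [Complex.exp_im]
      apply mul_pos (Real.exp_pos _)
      have : (Complex.I * (2 * π * dst 0 φ₀)).im = (2 * π * dst 0 φ₀ : ℂ).re := by
        rw [Complex.I_mul_im]
      rw [this, hu_re]
      exact Real.sin_pos_of_pos_of_lt_pi (by positivity) b2
    rw [e3] at e1
    set X := ex (2 * π * dst 0 φ₀)
    have e4 : (X - (1 + 2 * Complex.I)) * (5 * X - (1 - 2 * Complex.I)) = 0 := by
      have hI := Complex.I_sq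
      field_simp at e1
      have e5 : X ^ 2 * (2 - Complex.I) + (2 - Complex.I) = 2 * X * (2 + Complex.I) := by
        linear_combination e1
      have e6 : (2 - Complex.I) * (X ^ 2 + 1) * (2 + Complex.I) =
          2 * X * (2 + Complex.I) * (2 + Complex.I) := by
        linear_combination (2 + Complex.I) * e5
      have e7 : (2 - Complex.I) * (2 + Complex.I) = 5 := by linear_combination -hI
      linear_combination e6 - (X ^ 2 + 1) * e7 + (2 * X - 4) * hI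
    rcases mul_eq_zero.1 e4 with h | h
    · linear_combination h
    · exfalso
      have h5 := congrArg Complex.im h
      have h6 : (5 * X - (1 - 2 * Complex.I)).im = 5 * X.im + 2 := by
        simp
      rw [h6] at h5
      simp at h5
      linarith
  have hure : 2 * π * (dst 0 φ₀).re < π / 2 := by
    have h1 : 0 < (ex (2 * π * dst 0 φ₀)).re := by rw [hX]; simp
    unfold ex at h1
    rw [Complex.exp_re] at h1
    have h2 : (Complex.I * (2 * π * dst 0 φ₀)).im = 2 * π * (dst 0 φ₀).re := by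
      rw [Complex.I_mul_im, hu_re]
    rw [h2] at h1
    by_contra hc
    push Not at hc
    have h3 : Real.cos (2 * π * (dst 0 φ₀).re) ≤ 0 :=
      Real.cos_nonpos_of_pi_div_two_le_of_le hc (by linarith)
    have h4 := Real.exp_pos (Complex.I * (2 * π * dst 0 φ₀)).re
    nlinarith
  have hopen : Rc r r ×ˢ ball φ₀ r ∈ 𝓝 ((0 : ℂ), φ₀) :=
    ((Rc_open r r).prod isOpen_ball).mem_nhds ⟨m0, mφ⟩
  have hdc : ContinuousAt (fun p : ℂ × ℂ => dst p.1 p.2) ((0 : ℂ), φ₀) :=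
    (hS.dan.differentiableAt hopen).continuousAt
  have huc : ContinuousAt (fun p : ℂ × ℂ => 2 * π * dst p.1 p.2) ((0 : ℂ), φ₀) :=
    continuousAt_const.mul hdc
  have c1 : ContinuousAt (fun p : ℂ × ℂ => p.1) ((0 : ℂ), φ₀) := continuousAt_fst
  have c2 : ContinuousAt (fun p : ℂ × ℂ => p.2) ((0 : ℂ), φ₀) := continuousAt_snd
  have ex0 : ex 0 = 1 := by unfold ex; rw [mul_zero, Complex.exp_zero]
  have v1 := cont_t1 huc c1 (by
    simp only
    rw [hX, ex0]
    exact im_t1_one)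
  have v2 := cont_t2 huc c1 (by
    simp only
    rw [hX, ex0]
    exact im_t2_one)
  have v3 := cont_t1 huc c2 (by
    simp only
    rw [hX, ex_zc]
    exact im_t1_w)
  have v4 := cont_t2 huc c2 (by
    simp only
    rw [hX, ex_zc]
    exact im_t2_w)
  have w1 : ∀ δ z : ℂ, (2 * π * δ + z) / 2 = π * δ + z / 2 := by intro δ z; ring
  have w2 : ∀ δ z : ℂ, (2 * π * δ - z) / 2 = π * δ - z / 2 := by intro δ z; ring
  have q1 : |φ₀.re| < π := by rw [abs_of_pos i2]; exact i3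
  obtain ⟨o1, o2⟩ := mem_Om_psi (δ := dst 0 φ₀) (ψ := 0) b1 (by simpa using b2)
  obtain ⟨o3, o4⟩ := mem_Om_phi' (δ := dst 0 φ₀) (φ := φ₀) b1 b2 b3 q1
  have v5 := cont_arg huc c1 (by simp only; rw [w2]; exact o2) (by simp only; rw [w1]; exact o1) (by
    simp only
    rw [sub_zero, add_zero, sub_self, abs_zero]
    exact Real.pi_pos)
  have h6 := abs_le.1 (le_refl |(dst 0 φ₀).im|)
  have v6 := cont_arg huc c2 (by simp only; rw [w2]; exact o4) (by simp only; rw [w1]; exact o3) (by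
    simp only
    rw [w1, w2]
    have hz := zc_re
    have n1 : (Complex.cos (π * dst 0 φ₀ - φ₀ / 2)).im < 0 := by
      rw [← Complex.cos_neg]
      apply cos_im_neg
      · rw [Complex.neg_re, Complex.sub_re, pi_mul_re, half_re]
        linarith
      · rw [Complex.neg_re, Complex.sub_re, pi_mul_re, half_re]
        have := mul_pos Real.pi_pos b1
        linarith
      · rw [Complex.neg_im, Complex.sub_im, pi_mul_im, half_im]
        nlinarith [h6.1, h6.2]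
    have n2 : (Complex.cos (π * dst 0 φ₀ + φ₀ / 2)).im < 0 := by
      have := mul_pos Real.pi_pos b1
      apply cos_im_neg
      · rw [Complex.add_re, pi_mul_re, half_re]
        linarith
      · rw [Complex.add_re, pi_mul_re, half_re]
        linarith
      · rw [Complex.add_im, pi_mul_im, half_im]
        nlinarith [h6.1, h6.2]
    obtain ⟨a1, a2⟩ := arg_neg_bounds n1
    obtain ⟨a3, a4⟩ := arg_neg_bounds n2
    rw [abs_lt]
    constructor <;> linarith)
  have v7 : ∀ᶠ p in 𝓝 ((0 : ℂ), φ₀), 2 + Complex.cos p.1 + Complex.cos p.2 ≠ 0 := by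
    have c3 : ContinuousAt (fun p : ℂ × ℂ => 2 + Complex.cos p.1 + Complex.cos p.2)
      ((0 : ℂ), φ₀) := by fun_prop
    apply c3.eventually_ne
    simp only
    rw [Complex.cos_zero, cos_zc]
    intro h0
    have h1 := congrArg Complex.im h0
    simp at h1
  have hall := (((((((v1.and v2).and v3).and v4).and v5).and v6).and v7).and hopen)
  obtain ⟨ε, hε, hb⟩ := Metric.eventually_nhds_iff.1 hall
  refine ⟨r, c, C, ε / 2, hS, by linarith, fun ψ φ n1 n2 => ?_⟩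
  have hd : dist (ψ, φ) ((0 : ℂ), φ₀) < ε := by
    rw [Prod.dist_eq]
    simp only [dist_eq_norm, sub_zero]
    rw [max_lt_iff]
    exact ⟨by linarith, by linarith⟩
  obtain ⟨⟨⟨⟨⟨⟨⟨k1, k2⟩, k3⟩, k4⟩, k5⟩, k6⟩, k7⟩, k8⟩ := hb hd
  obtain ⟨m1, m2⟩ := k8
  simp only at k1 k2 k3 k4 k5 k6 k7 m1 m2
  obtain ⟨s1, s2, s3⟩ := hS.dpos ψ m1 φ m2
  obtain ⟨g1, g2, g3⟩ := hS.im φ m2
  have g4 : |φ.re| < π := by rw [abs_of_pos g2]; exact g3
  have hψre : |ψ.re| < π := lt_of_lt_of_le m1.1 (by linarith)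
  have hs2 : 2 * π * (dst ψ φ).re < π := by linarith [abs_nonneg ψ.re]
  obtain ⟨p1, p2⟩ := mem_Om_psi s1 s2
  obtain ⟨p3, p4⟩ := mem_Om_phi' s1 hs2 s3 g4
  have hE : HE ψ φ (2 * π * dst ψ φ) :=
    ⟨⟨k1, k2⟩, ⟨k3, k4⟩, k7, hS.dcos ψ m1 φ m2, hψre, g4⟩
  refine ⟨m1, m2, hw hE, (hS.sder1 ψ m1 φ m2).deriv, (hS.sder2 ψ m1 φ m2).deriv, ?_⟩
  unfold sg
  have h12 : (dst ψ φ).re < 1 / 2 := by
    by_contra hcon
    push Not at hcon
    nlinarith [Real.pi_pos]
  exact value p1 p2 p3 p4 s1 h12 (hS.dder ψ m1 φ m2) (Lg_im hE.sd k5) (Lg_im hE.sd' k6)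

/-- job AXG4 -/
theorem cgeox (hC : S_CSG) (_hE : S_EDGE) (_hG : S_SGP) (hP : S_GPS) : S_CGEOX := by
  obtain ⟨r, c, C, g, hS, hg, hb⟩ := near hC
  refine ⟨g, hg, fun ψ φ h1 h2 => ⟨dst ψ φ, (hb ψ φ h1 h2).2.2, ?_⟩⟩
  rw [← base hP]
  have hin : ∀ t : ℝ, t ∈ Icc (0 : ℝ) 1 → ‖(0 : ℂ) + (t : ℂ) * ψ‖ ≤ g ∧
      ‖zc 0 + (t : ℂ) * (φ - zc 0) - zc 0‖ ≤ g := by
    intro t ht
    constructor
    · rw [zero_add, norm_mul, Complex.norm_real, Real.norm_of_nonneg ht.1]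
      have := norm_nonneg ψ
      nlinarith [ht.1, ht.2]
    · rw [add_sub_cancel_left, norm_mul, Complex.norm_real, Real.norm_of_nonneg ht.1]
      have := norm_nonneg (φ - zc 0)
      nlinarith [ht.1, ht.2]
  have key := segW Pool.Agent.TH563.CV.der (f := sg) (dl := dst) (D := Rc r r ×ˢ ball (zc 0) r)
    ((Pool.Agent.N402.VE.Rc_open r r).prod isOpen_ball) hS.san hS.dan (p0 := 0) (q0 := zc 0)
    (a := ψ) (b := φ - zc 0)
    (fun t ht => ⟨(hb _ _ (hin t ht).1 (hin t ht).2).1, (hb _ _ (hin t ht).1 (hin t ht).2).2.1⟩)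
    (fun t ht => (hb _ _ (hin t ht).1 (hin t ht).2).2.2.hg)
    (fun p hp => hS.sder1 p.1 hp.1 p.2 hp.2) (fun p hp => hS.sder2 p.1 hp.1 p.2 hp.2)
  rw [zero_add, add_sub_cancel] at key
  exact key

end Pool.Agent.N769.AX
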