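import Pool.Agent.N194.VS.Base

/-!
# The potential for `ψ = 0` between the region `GG` and the point of the clasp (helper769)
-/

set_option autoImplicit false

namespace Pool.Agent.N769.AX

open Filter Topology Metric Set
open scoped Real
open Pool.Agent.N561 Pool.Agent.N496.VS Pool.Agent.N194.VS
open Pool.Agent.W711.HT (Lg Rc)

/-- the region -/
def HH : Set ℂ := {φ | |φ.re| < π ∧ 0 < φ.im ∧ -(2 / 3) < Real.cos φ.re}

theorem HH_re {φ : ℂ} (h : φ ∈ HH) : |(φ / 2).re| < π / 2 := by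
  have h1 := h.1
  have e : (φ / 2).re = φ.re / 2 := by simp
  rw [e, abs_div, abs_two]
  linarith

theorem poly' {k C : ℝ} (hk : -(2 / 3) < k) (hC : 1 < C) :
    (2 + C + k) ^ 2 < C ^ 2 * (8 + 4 * k * C + (C + k) ^ 2) := by
  have e : C ^ 2 * (8 + 4 * k * C + (C + k) ^ 2) - (2 + C + k) ^ 2 =
      (C - 1) * (C ^ 3 + C ^ 2 + 8 * C + 4 + k * (6 * C ^ 2 + 6 * C + 4) + k ^ 2 * (C + 1)) := by
    ring
  have h1 : 0 < C - 1 := by linarith
  have h2 : 0 < C ^ 3 + C ^ 2 + 8 * C + 4 + k * (6 * C ^ 2 + 6 * C + 4) + k ^ 2 * (C + 1) := by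
    have h3 : 0 < (k + 2 / 3) * (6 * C ^ 2 + 6 * C + 4) := by
      apply mul_pos <;> nlinarith
    have h4 : 0 ≤ k ^ 2 * (C + 1) := by positivity
    have h5 : 0 < C * (C ^ 2 - 3 * C + 4) := by
      apply mul_pos (by linarith)
      nlinarith [sq_nonneg (C - 3 / 2)]
    nlinarith
  have := mul_pos h1 h2
  linarith

theorem im_lt' {φ : ℂ} (h : φ ∈ HH) : |(aa (0, φ)).im| < φ.im / 2 := by
  unfold aa
  rw [ww_zero, at_im]
  set z := Complex.cos (φ / 2) with hz
  have hzr : 0 < z.re := cos_re_pos (HH_re h)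
  have hY := h.2.1
  have hq : 0 < ‖qz z‖ := by
    rw [norm_pos_iff]
    exact Complex.slitPlane_ne_zero (qz_slit hzr)
  have key : Real.cosh (Real.log ‖qz z‖) < Real.cosh φ.im := by
    rw [Real.cosh_log hq]
    set A := ‖1 + z * Complex.I‖ with hA
    set B := ‖1 - z * Complex.I‖ with hB
    have hApos : 0 < A := norm_pos_iff.2 (num_ne hzr)
    have hBpos : 0 < B := norm_pos_iff.2 (den_ne hzr)
    have e0 : ‖qz z‖ = A / B := by
      unfold qz
      rw [norm_div]
    have eA : A ^ 2 = (1 - z.im) ^ 2 + z.re ^ 2 := by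
      rw [hA, Complex.sq_norm, Complex.normSq_apply]
      simp
      ring
    have eB : B ^ 2 = (1 + z.im) ^ 2 + z.re ^ 2 := by
      rw [hB, Complex.sq_norm, Complex.normSq_apply]
      simp
      ring
    have hre := half_re φ
    have him := half_im φ
    rw [← hz] at hre him
    set k := Real.cos φ.re
    set C := Real.cosh φ.im
    have hk : -(2 / 3) < k := h.2.2
    have hC : 1 < C := by
      rw [Real.one_lt_cosh]
      exact h.2.1.ne'
    have hsum : A ^ 2 + B ^ 2 = 2 + C + k := by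
      rw [eA, eB]
      linarith
    have hprod : (A * B) ^ 2 = (8 + 4 * k * C + (C + k) ^ 2) / 4 := by
      rw [mul_pow, eA, eB]
      have : ((1 - z.im) ^ 2 + z.re ^ 2) * ((1 + z.im) ^ 2 + z.re ^ 2) =
        (1 + (z.im ^ 2 + z.re ^ 2)) ^ 2 - 4 * z.im ^ 2 := by ring
      rw [this, hre, him]
      ring
    have hp := poly' hk hC
    have h1 : (A ^ 2 + B ^ 2) ^ 2 < (2 * C * (A * B)) ^ 2 := by
      rw [hsum, mul_pow, hprod]
      linarith
    have h2 : A ^ 2 + B ^ 2 < 2 * C * (A * B) := by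
      apply lt_of_pow_lt_pow_left₀ 2 _ h1
      positivity
    rw [e0]
    have e1 : (A / B + (A / B)⁻¹) / 2 = (A ^ 2 + B ^ 2) / (2 * (A * B)) := by
      field_simp
    rw [e1, div_lt_iff₀ (by positivity)]
    linarith
  rw [Real.cosh_lt_cosh] at key
  rw [abs_div, abs_neg, abs_two]
  rw [abs_of_pos hY] at key
  linarith

theorem nice_HH {φ : ℂ} (h : φ ∈ HH) : Nice (0, φ) := by
  have hw : 0 < (ww (0, φ)).re := by
    rw [ww_zero]
    exact cos_re_pos (HH_re h)
  have e : (aa (0, φ)).re < π / 2 := at_re_lt hw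
  refine ⟨?_, hw, ?_, im_lt' h, ?_⟩
  · simp
  · simpa using e
  · have := HH_re h
    have e : (φ / 2).re = φ.re / 2 := by simp
    rw [e, abs_div, abs_two] at this
    exact this

theorem HH_shrink {φ : ℂ} (h : φ ∈ HH) {s : ℝ} (hs0 : 0 ≤ s) (hs1 : s ≤ 1) :
    ((s * φ.re : ℝ) + φ.im * Complex.I : ℂ) ∈ HH := by
  obtain ⟨h1, h2, h4⟩ := h
  have e1 : ((s * φ.re : ℝ) + φ.im * Complex.I : ℂ).re = s * φ.re := by simp
  have e2 : ((s * φ.re : ℝ) + φ.im * Complex.I : ℂ).im = φ.im := by simp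
  have hle : |s * φ.re| ≤ |φ.re| := by
    rw [abs_mul, abs_of_nonneg hs0]
    nlinarith [abs_nonneg φ.re]
  refine ⟨?_, ?_, ?_⟩
  · rw [e1]
    exact lt_of_le_of_lt hle h1
  · rw [e2]
    exact h2
  · rw [e1]
    have h5 : Real.cos φ.re ≤ Real.cos (s * φ.re) := by
      rw [← Real.cos_abs, ← Real.cos_abs (s * φ.re)]
      exact Real.cos_le_cos_of_nonneg_of_le_pi (abs_nonneg _) h1.le hle
    linarith

theorem EE_HH {φ : ℂ} (h : φ ∈ HH) (hG : (φ.im * Complex.I : ℂ) ∈ GG) : EE (0, φ) = 0 := by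
  have key := path_zero (f := fun s : ℝ => EE (0, ((s * φ.re : ℝ) + φ.im * Complex.I : ℂ)))
    (by
      intro s hs
      have hn := nice_HH (HH_shrink h hs.1 hs.2)
      have := ContinuousAt.comp (f := fun s : ℝ =>
        ((0 : ℂ), ((s * φ.re : ℝ) + φ.im * Complex.I : ℂ))) (EE_cont hn) path_cont.continuousAt
      exact this.continuousWithinAt)
    (fun s hs => EE_exp (nice_HH (HH_shrink h hs.1 hs.2)))
    (by
      simp only [zero_mul, Complex.ofReal_zero, zero_add]
      exact EE_axis hG)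
  simpa [Complex.re_add_im] using key

theorem sin_im_pos' {φ : ℂ} (h : φ ∈ HH) : 0 < (Complex.sin (φ / 2)).im := by
  rw [sin_im]
  obtain ⟨h1, h2⟩ := abs_lt.1 (HH_re h)
  have h3 : (φ / 2).im = φ.im / 2 := by simp
  apply mul_pos (Real.cos_pos_of_mem_Ioo ⟨h1, h2⟩)
  rw [h3]
  apply Real.sinh_pos_iff.2
  linarith [h.2.1]

theorem ratio_slit' {φ : ℂ} (h : φ ∈ HH) :
    Complex.cos (aa (0, φ) - φ / 2) / Complex.cos (aa (0, φ) + φ / 2) ∈ Complex.slitPlane := by
  have hn := nice_HH h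
  have hs : Complex.sin (aa (0, φ)) = ww (0, φ) * Complex.cos (aa (0, φ)) := at_sin hn.wre
  have b1 : Complex.cos (aa (0, φ) - φ / 2) =
      Complex.cos (aa (0, φ)) * Complex.cos (φ / 2) * (1 + Complex.sin (φ / 2)) := by
    rw [Complex.cos_sub, hs, ww_zero]
    ring
  have b2 : Complex.cos (aa (0, φ) + φ / 2) =
      Complex.cos (aa (0, φ)) * Complex.cos (φ / 2) * (1 - Complex.sin (φ / 2)) := by
    rw [Complex.cos_add, hs, ww_zero]
    ring
  rw [b1, b2]
  have h1 : Complex.cos (aa (0, φ)) ≠ 0 := cos_aa_ne hn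
  have h2 : Complex.cos (φ / 2) ≠ 0 := by
    intro h0
    have := cos_re_pos (HH_re h)
    rw [h0] at this
    simp at this
  rw [mul_div_mul_left _ _ (mul_ne_zero h1 h2)]
  have h3 := qz_slit (z := -Complex.I * Complex.sin (φ / 2)) (by
    have := sin_im_pos' h
    simpa using this)
  unfold qz at h3
  have e : -Complex.I * Complex.sin (φ / 2) * Complex.I = Complex.sin (φ / 2) := by
    linear_combination -Complex.sin (φ / 2) * Complex.I_mul_I
  rwa [e] at h3

theorem D2_cont' {φ : ℂ} (h : φ ∈ HH) : ContinuousAt D2 (0, φ) := by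
  have hn := nice_HH h
  have ha := hn.ana.continuousAt
  have h2 : ContinuousAt (fun q : ℂ × ℂ => q.2 / 2) (0, φ) := by
    have : Continuous (fun q : ℂ × ℂ => q.2 / 2) := by fun_prop
    exact this.continuousAt
  have c1 : ContinuousAt (fun q : ℂ × ℂ => Complex.cos (aa q + q.2 / 2)) (0, φ) :=
    Complex.continuous_cos.continuousAt.comp (ha.add h2)
  have c2 : ContinuousAt (fun q : ℂ × ℂ => Complex.cos (aa q - q.2 / 2)) (0, φ) :=
    Complex.continuous_cos.continuousAt.comp (ha.sub h2)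
  have l1 : ContinuousAt (fun q : ℂ × ℂ => Complex.log (2 * Complex.cos (aa q + q.2 / 2)))
      (0, φ) := ContinuousAt.clog (f := fun q : ℂ × ℂ => 2 * Complex.cos (aa q + q.2 / 2))
    (continuousAt_const.mul c1) (DL_slit hn.mem3)
  have l2 : ContinuousAt (fun q : ℂ × ℂ => Complex.log (2 * Complex.cos (aa q - q.2 / 2)))
      (0, φ) := ContinuousAt.clog (f := fun q : ℂ × ℂ => 2 * Complex.cos (aa q - q.2 / 2))
    (continuousAt_const.mul c2) (DL_slit hn.mem4)
  have n1 : Complex.cos (aa (0, φ) + φ / 2) ≠ 0 := by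
    have := Complex.slitPlane_ne_zero (DL_slit hn.mem3)
    intro h0
    apply this
    simp only [h0, mul_zero]
  have l3 : ContinuousAt (fun q : ℂ × ℂ => Complex.log (Complex.cos (aa q - q.2 / 2) /
      Complex.cos (aa q + q.2 / 2))) (0, φ) :=
    ContinuousAt.clog (f := fun q : ℂ × ℂ => Complex.cos (aa q - q.2 / 2) /
      Complex.cos (aa q + q.2 / 2)) (c2.div c1 n1) (ratio_slit' h)
  exact (l1.sub l2).add l3

theorem D2_HH {φ : ℂ} (h : φ ∈ HH) (hG : (φ.im * Complex.I : ℂ) ∈ GG) : D2 (0, φ) = 0 := by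
  have key := path_zero (f := fun s : ℝ => D2 (0, ((s * φ.re : ℝ) + φ.im * Complex.I : ℂ)))
    (by
      intro s hs
      have := ContinuousAt.comp (f := fun s : ℝ =>
        ((0 : ℂ), ((s * φ.re : ℝ) + φ.im * Complex.I : ℂ))) (D2_cont' (HH_shrink h hs.1 hs.2))
        path_cont.continuousAt
      exact this.continuousWithinAt)
    (fun s hs => D2_exp (nice_HH (HH_shrink h hs.1 hs.2)))
    (by
      simp only [zero_mul, Complex.ofReal_zero, zero_add]
      exact D2_axis hG)
  simpa [Complex.re_add_im] using key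

/-- the derivative -/
theorem sder2_HH {φ : ℂ} (h : φ ∈ HH) (hG : (φ.im * Complex.I : ℂ) ∈ GG) :
    HasDerivAt (fun z => sg 0 z) (-(1 / (2 * π)) * Lg (2 * π * dst 0 φ) φ) φ := by
  have h2 := sg_d2 (nice_HH h) (EE_HH h hG)
  have h1 := D2_HH h hG
  unfold D2 at h1
  simp only at h1 h2
  refine h2.congr_deriv ?_
  rw [Lg_eq]
  linear_combination (1 / (2 * (π : ℂ))) * h1

/-- differentiability of the critical point -/
theorem dst_HH {φ : ℂ} (h : φ ∈ HH) : DifferentiableAt ℂ (fun z => dst 0 z) φ := by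
  have h1 : DifferentiableAt ℂ aa (0, φ) := (nice_HH h).ana.differentiableAt
  have h2 : DifferentiableAt ℂ (fun z : ℂ => aa (0, z)) φ :=
    DifferentiableAt.comp (f := fun z : ℂ => ((0 : ℂ), z)) φ h1 (by fun_prop)
  exact h2.const_mul (1 / π : ℂ)

/-- the point of the clasp -/
theorem z0_HH : z0 ∈ HH ∧ (z0.im * Complex.I : ℂ) ∈ GG := by
  have hc := cos_z0
  have h1 := congrArg Complex.re hc
  have h2 := congrArg Complex.im hc
  rw [cos_re] at h1
  rw [cos_im] at h2
  simp only [Complex.sub_re, Complex.neg_re, Complex.one_re, Complex.I_re, Complex.sub_im,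
    Complex.neg_im, Complex.one_im, Complex.I_im] at h1 h2
  have hi := z0_im_pos
  have hr1 := z0_re_pos
  have hr2 := z0_re_lt
  have hpi := Real.pi_pos
  have hch : 0 < Real.cosh z0.im := Real.cosh_pos _
  set c := Real.cos z0.re with hcdef
  set s := Real.sin z0.re with hsdef
  set C := Real.cosh z0.im with hCdef
  set S := Real.sinh z0.im with hSdef
  have e1 : c * C = -1 := by linarith
  have e2 : s * S = 1 := by linarith
  have e3 : s ^ 2 = 1 - c ^ 2 := by
    have := Real.sin_sq_add_cos_sq z0.re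
    linarith
  have e4 : S ^ 2 = C ^ 2 - 1 := by
    have := Real.cosh_sq z0.im
    linarith
  have hc0 : c < 0 := by
    by_contra hcon
    push Not at hcon
    nlinarith
  have e5 : (1 - c ^ 2) * (C ^ 2 - 1) = 1 := by
    rw [← e3, ← e4, ← mul_pow, e2, one_pow]
  have e6 : (1 - c ^ 2) ^ 2 = c ^ 2 := by
    have h3 : c ^ 2 * C ^ 2 = 1 := by rw [← mul_pow, e1]; norm_num
    have h4 : (1 - c ^ 2) * (c ^ 2 * C ^ 2 - c ^ 2) = c ^ 2 := by
      linear_combination c ^ 2 * e5
    rw [h3] at h4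
    linear_combination h4
  have hc1 : -1 < c := by
    by_contra hcon
    push Not at hcon
    have h5 : -1 ≤ c := Real.neg_one_le_cos _
    have h6 : c = -1 := le_antisymm hcon h5
    rw [h6] at e6
    norm_num at e6
  have e7 : 1 - c ^ 2 = -c := by
    have h3 : (1 - c ^ 2 - -c) * (1 - c ^ 2 + -c) = 0 := by linear_combination e6
    rcases mul_eq_zero.1 h3 with h4 | h4
    · linarith
    · exfalso
      nlinarith
  have hk : -(2 / 3) < c := by nlinarith
  have hk2 : c < -(3 / 5) := by nlinarith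
  refine ⟨⟨?_, hi, hk⟩, ?_, ?_, ?_, ?_⟩
  · rw [abs_of_pos hr1]; exact hr2
  · simp
  · simpa using hi
  · simp only [Complex.mul_im, Complex.ofReal_re, Complex.I_im, mul_one, Complex.ofReal_im,
      Complex.I_re, mul_zero, add_zero]
    have h3 : C < 5 / 3 := by nlinarith
    have h4 : Real.cosh z0.im < Real.cosh (39 / 20) := by
      have h5 : (5 / 3 : ℝ) < Real.cosh (39 / 20) := by
        rw [Real.cosh_eq]
        have h6 := Real.quadratic_le_exp_of_nonneg (x := 39 / 20) (by norm_num)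
        have h7 := Real.exp_pos (-(39 / 20 : ℝ))
        norm_num at h6 ⊢
        linarith
      linarith
    rw [Real.cosh_lt_cosh, abs_of_pos hi, abs_of_pos (by norm_num)] at h4
    exact h4
  · simp only [Complex.mul_im, Complex.mul_re, Complex.ofReal_re, Complex.I_im, mul_one,
      Complex.ofReal_im, Complex.I_re, mul_zero, add_zero, sub_self, Real.cos_zero, one_mul]
    linarith

end Pool.Agent.N769.AX
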